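import Pool.Agent.Mg.F0946c8.G415c23

/-! Composition of two deciders: a filter, then a second machine on the padded word. -/

set_option autoImplicit false

namespace Pool.Agent.MP_0946c8_al

open Turing

/-- `P` is decided within time `T` -/
def Dec {A : Type} (P : List A → Prop) (T : List A → ℕ) : Prop :=
  ∃ (Γ Q : Type) (_ : Inhabited Γ) (_ : Finite Γ) (_ : Finite Q) (k : ℕ)
    (M : MultiTapeTM A Γ Q k), ∀ w, ∃ t b, t ≤ T w ∧ M.HaltsAt w t b ∧ (b = true ↔ P w)

/-- every letter is followed by `n` filling letters -/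
def padn {A : Type} (n : ℕ) (w : List A) : List (Option A) :=
  w.flatMap fun a => some a :: List.replicate n none

theorem padn_length {A : Type} (n : ℕ) (w : List A) : (padn n w).length = w.length * (n + 1) := by
  induction w with
  | nil => simp [padn]
  | cons a w ih =>
    simp only [padn, List.flatMap_cons, List.length_append, List.length_cons,
      List.length_replicate] at ih ⊢
    rw [ih]
    ring

section Tapes

variable {Γ : Type} [Inhabited Γ]

theorem act_stay (T : Tape Γ) : act (T.head, none) T = T := Tape.write_self T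

theorem act_move (T : Tape Γ) (d : Dir) : act (T.head, some d) T = T.move d := by
  simp only [act, Option.elim, Tape.write_self]

theorem act_end (y : Γ) (L : List Γ) :
    act (y, some Dir.right) (Tape.mk₂ L []) = Tape.mk₂ (y :: L) [] := by
  simp [act, Tape.mk₂, Tape.mk', Tape.write, Tape.move]

theorem head_cons (L R : List Γ) (x : Γ) : (Tape.mk₂ L (x :: R)).head = x := rfl

theorem head_nil (L : List Γ) : (Tape.mk₂ L []).head = default := rfl

theorem right_cons (L R : List Γ) (x : Γ) :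
    (Tape.mk₂ L (x :: R)).move Dir.right = Tape.mk₂ (x :: L) R := by
  simp [Tape.mk₂]

theorem left_cons (L R : List Γ) (x : Γ) :
    (Tape.mk₂ (x :: L) R).move Dir.left = Tape.mk₂ L (x :: R) := by
  simp [Tape.mk₂]

theorem act_back (T : Tape Γ) :
    act ((T.move Dir.left).head, some Dir.right) (T.move Dir.left) = T :=
  (act_move _ _).trans (Tape.move_left_right T)

theorem head_left_nil (R : List Γ) : ((Tape.mk₂ [] R).move Dir.left).head = default := rfl

theorem act_map {Γ' : Type} [Inhabited Γ'] (f : PointedMap Γ Γ') (p : Γ × Option Dir)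
    (T : Tape Γ) : act (f p.1, p.2) (T.map f) = (act p T).map f := by
  obtain ⟨y, _ | d⟩ := p
  · simp only [act, Option.elim, Tape.map_write]
  · simp only [act, Option.elim, Tape.map_write, Tape.map_move]

end Tapes

/-- the tapes of the composed machine -/
abbrev Ix (k₁ k₂ : ℕ) := Fin (k₁ + 1) ⊕ Bool ⊕ Fin (k₂ + 1)

/-- a family indexed by the tapes -/
def tp {α : Type} {k₁ k₂ : ℕ} (x : Fin (k₁ + 1) → α) (b r : α) (y : Fin (k₂ + 1) → α) :
    Ix k₁ k₂ → α := Sum.elim x (Sum.elim (fun c => cond c b r) y)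

/-- the states of the composed machine -/
abbrev St (Q₁ Q₂ : Type) := Q₁ ⊕ Fin 6 ⊕ Q₂

section Comb

variable {A Γ₁ Q₁ Γ₂ Q₂ : Type} [Inhabited Γ₁] [Inhabited Γ₂] {k₁ k₂ k : ℕ}
  (M₁ : MultiTapeTM A Γ₁ Q₁ k₁) (M₂ : MultiTapeTM (Option A) Γ₂ Q₂ k₂)

def e₁ : PointedMap Γ₁ (Γ₁ × Γ₂ × Option A) := ⟨fun x => (x, default, none), rfl⟩

def e₂ : PointedMap Γ₂ (Γ₁ × Γ₂ × Option A) := ⟨fun x => (default, x, none), rfl⟩

def e₃ (a : A) : Γ₁ × Γ₂ × Option A := (default, default, some a)

open Classical in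
/-- decoding of an input symbol -/
noncomputable def dcd (x : Γ₁) : Option A := if h : ∃ a, M₁.enc a = x then some h.choose else none

theorem dcd_enc (a : A) : dcd M₁ (M₁.enc a) = some a := by
  have h : ∃ b, M₁.enc b = M₁.enc a := ⟨a, rfl⟩
  rw [dcd, dif_pos h, M₁.enc_injective h.choose_spec]

theorem dcd_default : dcd M₁ default = none :=
  dif_neg fun ⟨a, h⟩ => M₁.enc_ne_blank a h

/-- an action on tape `0` of a block, nothing on the other tapes -/
def zer {Γ : Type} {k : ℕ} (h : Fin (k + 1) → Γ) (p : Γ × Option Dir) :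
    Fin (k + 1) → Γ × Option Dir := fun i => if i = 0 then p else (h i, none)

open Classical in
/-- the transition function -/
noncomputable def ctr (q : St Q₁ Q₂) (x : Fin (k₁ + 1) → Γ₁ × Γ₂ × Option A)
    (b r : Γ₁ × Γ₂ × Option A) (y : Fin (k₂ + 1) → Γ₁ × Γ₂ × Option A) :
    St Q₁ Q₂ × (Ix k₁ k₂ → (Γ₁ × Γ₂ × Option A) × Option Dir) :=
  match q with
  | .inl q =>
    if M₁.answer q = none then
      (.inl (M₁.trans q fun i => (x i).1).1, tp (fun i => (e₁ ((M₁.trans q fun i => (x i).1).2 i).1,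
        ((M₁.trans q fun i => (x i).1).2 i).2)) (b, none) (r, none) fun i => (y i, none))
    else (.inr (.inl 2), tp (fun i => (x i, none)) (b, none) (r, none) fun i => (y i, none))
  | .inr (.inr q) =>
    (.inr (.inr (M₂.trans q fun i => (y i).2.1).1), tp (fun i => (x i, none)) (b, none) (r, none)
      fun i => (e₂ ((M₂.trans q fun i => (y i).2.1).2 i).1, ((M₂.trans q fun i => (y i).2.1).2 i).2))
  | .inr (.inl 0) =>
    match dcd M₁ (x 0).1 with
    | some a => (.inr (.inl 0), tp (zer x (x 0, some .right)) (e₃ a, some .right)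
        (e₃ a, some .right) fun i => (y i, none))
    | none => (.inr (.inl 1), tp (zer x (x 0, some .left)) (b, some .left) (r, some .left)
        fun i => (y i, none))
  | .inr (.inl 1) =>
    match b.2.2 with
    | some _ => (.inr (.inl 1), tp (zer x (x 0, some .left)) (b, some .left) (r, some .left)
        fun i => (y i, none))
    | none => (.inl M₁.start, tp (zer x (x 0, some .right)) (b, some .right) (r, some .right)
        fun i => (y i, none))
  | .inr (.inl 2) =>
    match b.2.2 with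
    | some a => (.inr (.inl 3), tp (fun i => (x i, none)) (b, some .right) (r, none)
        (zer y (e₂ (M₂.enc (some a)), some .right)))
    | none => (.inr (.inl 5), tp (fun i => (x i, none)) (b, none) (r, none)
        (zer y (y 0, some .left)))
  | .inr (.inl 3) =>
    match r.2.2 with
    | some _ => (.inr (.inl 3), tp (fun i => (x i, none)) (b, none) (r, some .right)
        (zer y (e₂ (M₂.enc none), some .right)))
    | none => (.inr (.inl 4), tp (fun i => (x i, none)) (b, none) (r, some .left)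
        fun i => (y i, none))
  | .inr (.inl 4) =>
    match r.2.2 with
    | some _ => (.inr (.inl 4), tp (fun i => (x i, none)) (b, none) (r, some .left)
        fun i => (y i, none))
    | none => (.inr (.inl 2), tp (fun i => (x i, none)) (b, none) (r, some .right)
        fun i => (y i, none))
  | .inr (.inl 5) =>
    if (y 0).2.1 = default then
      (.inr (.inr M₂.start), tp (fun i => (x i, none)) (b, none) (r, none)
        (zer y (y 0, some .right)))
    else (.inr (.inl 5), tp (fun i => (x i, none)) (b, none) (r, none) (zer y (y 0, some .left)))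

open Classical in
/-- the composed machine -/
noncomputable def comb (e : Fin (k + 1) ≃ Ix k₁ k₂) :
    MultiTapeTM A (Γ₁ × Γ₂ × Option A) (St Q₁ Q₂) k where
  enc a := e₁ (M₁.enc a)
  enc_injective _ _ h := M₁.enc_injective (congrArg Prod.fst h)
  enc_ne_blank a h := M₁.enc_ne_blank a (congrArg Prod.fst h)
  start := .inr (.inl 0)
  answer := Sum.elim (fun q => if M₁.answer q = some false then some false else none)
    (Sum.elim (fun _ => none) M₂.answer)
  trans q h :=
    ((ctr M₁ M₂ q (fun i => h (e.symm (.inl i))) (h (e.symm (.inr (.inl true))))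
      (h (e.symm (.inr (.inl false)))) fun i => h (e.symm (.inr (.inr i)))).1,
    fun i => (ctr M₁ M₂ q (fun i => h (e.symm (.inl i))) (h (e.symm (.inr (.inl true))))
      (h (e.symm (.inr (.inl false)))) fun i => h (e.symm (.inr (.inr i)))).2 (e i))

/-- configurations -/
def cfg {Q Γ : Type} [Inhabited Γ] (e : Fin (k + 1) ≃ Ix k₁ k₂) (q : Q)
    (X : Fin (k₁ + 1) → Tape Γ) (B R : Tape Γ) (Y : Fin (k₂ + 1) → Tape Γ) :
    Q × (Fin (k + 1) → Tape Γ) := (q, fun i => tp X B R Y (e i))

variable (e : Fin (k + 1) ≃ Ix k₁ k₂)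

theorem comb_one {q q' : St Q₁ Q₂} {X X' : Fin (k₁ + 1) → Tape (Γ₁ × Γ₂ × Option A)}
    {B R B' R' : Tape (Γ₁ × Γ₂ × Option A)} {Y Y' : Fin (k₂ + 1) → Tape (Γ₁ × Γ₂ × Option A)}
    {x : Fin (k₁ + 1) → (Γ₁ × Γ₂ × Option A) × Option Dir}
    {b r : (Γ₁ × Γ₂ × Option A) × Option Dir}
    {y : Fin (k₂ + 1) → (Γ₁ × Γ₂ × Option A) × Option Dir}
    (h0 : (comb M₁ M₂ e).answer q = none)
    (h : ctr M₁ M₂ q (fun i => (X i).head) B.head R.head (fun i => (Y i).head) = (q', tp x b r y))
    (hx : ∀ i, act (x i) (X i) = X' i) (hb : act b B = B') (hr : act r R = R')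
    (hy : ∀ i, act (y i) (Y i) = Y' i) :
    Reach (comb M₁ M₂ e) (cfg e q X B R Y) (cfg e q' X' B' R' Y') 1 := by
  refine Reach.single h0 ?_
  simp only [MultiTapeTM.step, comb, cfg, Equiv.apply_symm_apply, tp, Sum.elim_inl, Sum.elim_inr,
    cond_true, cond_false]
  rw [h]
  refine Prod.ext rfl (funext fun i => ?_)
  dsimp only
  rcases e i with i | (_ | _) | i
  exacts [hx i, hr, hb, hy i]

/-- a block of tapes of which only tape `0` is used -/
def zt {Γ : Type} [Inhabited Γ] {k : ℕ} (T : Tape Γ) : Fin (k + 1) → Tape Γ :=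
  fun i => if i = 0 then T else Tape.mk₁ []

theorem zt_act {Γ : Type} [Inhabited Γ] {k : ℕ} {T T' : Tape Γ} {p : Γ × Option Dir}
    (h : act p T = T') (i : Fin (k + 1)) :
    act (zer (fun i => (zt T i).head) p i) (zt T i) = zt T' i := by
  by_cases hi : i = 0
  · simp only [zer, zt, if_pos hi, h]
  · simp only [zer, zt, if_neg hi, act_stay]

theorem zt_head {Γ : Type} [Inhabited Γ] {k : ℕ} (T : Tape Γ) :
    (zt T (0 : Fin (k + 1))).head = T.head := rfl

theorem comb_copy (Y : Fin (k₂ + 1) → Tape (Γ₁ × Γ₂ × Option A)) (w : List A) : ∀ L : List A,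
    Reach (comb M₁ M₂ e)
      (cfg e (.inr (.inl 0)) (zt (Tape.mk₂ (L.map fun a => e₁ (M₁.enc a))
        (w.map fun a => e₁ (M₁.enc a)))) (Tape.mk₂ (L.map e₃) []) (Tape.mk₂ (L.map e₃) []) Y)
      (cfg e (.inr (.inl 1))
        (zt ((Tape.mk₂ ((w.reverse ++ L).map fun a => e₁ (M₁.enc a)) []).move .left))
        ((Tape.mk₂ ((w.reverse ++ L).map e₃) []).move .left)
        ((Tape.mk₂ ((w.reverse ++ L).map e₃) []).move .left) Y) (w.length + 1) := by
  induction w with
  | nil =>
    intro L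
    refine comb_one M₁ M₂ e rfl ?_ (zt_act (act_move _ _)) (act_move _ _) (act_move _ _)
      fun i => act_stay _
    have : dcd M₁ (zt (k := k₁) (Tape.mk₂ (L.map fun a => (e₁ (M₁.enc a) : Γ₁ × Γ₂ × Option A))
      ([].map fun a => e₁ (M₁.enc a))) 0).head.1 = none := dcd_default M₁
    simp only [ctr, this]
    rfl
  | cons a w ih =>
    intro L
    have h2 := Reach.trans (comb_one M₁ M₂ e (q := .inr (.inl 0)) (X := zt (Tape.mk₂
      (L.map fun a => e₁ (M₁.enc a)) ((a :: w).map fun a => e₁ (M₁.enc a)))) rfl (by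
        have : dcd M₁ (zt (k := k₁) (Tape.mk₂
          (L.map fun a => (e₁ (M₁.enc a) : Γ₁ × Γ₂ × Option A))
          ((a :: w).map fun a => e₁ (M₁.enc a))) 0).head.1 = some a := dcd_enc M₁ a
        simp only [ctr, this]
        rfl) (zt_act ((act_move _ _).trans (right_cons _ _ _))) (act_end _ _) (act_end _ _)
      fun i => act_stay _) (ih (a :: L))
    rw [add_comm 1] at h2
    simpa using h2

theorem comb_back (Y : Fin (k₂ + 1) → Tape (Γ₁ × Γ₂ × Option A)) (L : List A) : ∀ w : List A,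
    Reach (comb M₁ M₂ e)
      (cfg e (.inr (.inl 1)) (zt ((Tape.mk₂ (L.map fun a => e₁ (M₁.enc a))
        (w.map fun a => e₁ (M₁.enc a))).move .left))
        ((Tape.mk₂ (L.map e₃) (w.map e₃)).move .left)
        ((Tape.mk₂ (L.map e₃) (w.map e₃)).move .left) Y)
      (cfg e (.inl M₁.start) (zt (Tape.mk₂ [] ((L.reverse ++ w).map fun a => e₁ (M₁.enc a))))
        (Tape.mk₂ [] ((L.reverse ++ w).map e₃)) (Tape.mk₂ [] ((L.reverse ++ w).map e₃)) Y)
      (L.length + 1) := by
  induction L with
  | nil =>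
    intro w
    exact comb_one M₁ M₂ e rfl rfl (zt_act (act_back _))
      (act_back _)
      (act_back _) fun i => act_stay _
  | cons a L ih =>
    intro w
    simp only [List.map_cons, left_cons]
    have h2 := Reach.trans (comb_one M₁ M₂ e (q := .inr (.inl 1)) rfl rfl
      (zt_act (act_move _ _)) (act_move _ _) (act_move _ _) fun i => act_stay _) (ih (a :: w))
    rw [add_comm 1] at h2
    simpa using h2

theorem comb_run₁ (B R : Tape (Γ₁ × Γ₂ × Option A)) (Y : Fin (k₂ + 1) → Tape (Γ₁ × Γ₂ × Option A))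
    (t : ℕ) : ∀ c : Q₁ × (Fin (k₁ + 1) → Tape Γ₁),
    (∀ s < t, M₁.answer (M₁.step^[s] c).1 = none) →
    Reach (comb M₁ M₂ e) (cfg e (.inl c.1) (fun i => (c.2 i).map e₁) B R Y)
      (cfg e (.inl (M₁.step^[t] c).1) (fun i => ((M₁.step^[t] c).2 i).map e₁) B R Y) t := by
  induction t with
  | zero => exact fun c _ => Reach.refl _ _
  | succ t ih =>
    intro c h
    have h0 : M₁.answer c.1 = none := h 0 (Nat.succ_pos t)
    have h2 := Reach.trans (comb_one M₁ M₂ e (q := .inl c.1) (X := fun i => (c.2 i).map e₁)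
      (B := B) (R := R) (Y := Y) (by simp [comb, h0]) (by
        simp only [ctr, h0, if_true]
        rfl) (fun i => act_map e₁ _ _) (act_stay _) (act_stay _) fun i => act_stay _)
      (ih (M₁.step c) fun s hs => h (s + 1) (by omega))
    rwa [add_comm 1] at h2

theorem comb_run₂ (B R : Tape (Γ₁ × Γ₂ × Option A)) (X : Fin (k₁ + 1) → Tape (Γ₁ × Γ₂ × Option A))
    (t : ℕ) : ∀ c : Q₂ × (Fin (k₂ + 1) → Tape Γ₂),
    (∀ s < t, M₂.answer (M₂.step^[s] c).1 = none) →
    Reach (comb M₁ M₂ e) (cfg e (.inr (.inr c.1)) X B R fun i => (c.2 i).map e₂)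
      (cfg e (.inr (.inr (M₂.step^[t] c).1)) X B R fun i => ((M₂.step^[t] c).2 i).map e₂) t := by
  induction t with
  | zero => exact fun c _ => Reach.refl _ _
  | succ t ih =>
    intro c h
    have h2 := Reach.trans (comb_one M₁ M₂ e (q := .inr (.inr c.1)) (X := X)
      (Y := fun i => (c.2 i).map e₂) (B := B) (R := R) (h 0 (Nat.succ_pos t)) rfl
      (fun i => act_stay _) (act_stay _) (act_stay _) fun i => act_map e₂ _ _)
      (ih (M₂.step c) fun s hs => h (s + 1) (by omega))
    rwa [add_comm 1] at h2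

theorem comb_rep (B : Tape (Γ₁ × Γ₂ × Option A)) (X : Fin (k₁ + 1) → Tape (Γ₁ × Γ₂ × Option A))
    (w : List A) : ∀ (L : List A) (U : List (Option A)),
    Reach (comb M₁ M₂ e)
      (cfg e (.inr (.inl 3)) X B (Tape.mk₂ (L.map e₃) (w.map e₃))
        (zt (Tape.mk₂ (U.map fun a => e₂ (M₂.enc a)) [])))
      (cfg e (.inr (.inl 4)) X B ((Tape.mk₂ ((w.reverse ++ L).map e₃) []).move .left)
        (zt (Tape.mk₂ ((List.replicate w.length none ++ U).map fun a => e₂ (M₂.enc a)) [])))
      (w.length + 1) := by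
  induction w with
  | nil =>
    intro L U
    exact comb_one M₁ M₂ e rfl rfl (fun i => act_stay _) (act_stay _) (act_move _ _)
      fun i => act_stay _
  | cons a w ih =>
    intro L U
    have h2 := Reach.trans (comb_one M₁ M₂ e (q := .inr (.inl 3))
      (R := Tape.mk₂ (L.map e₃) ((a :: w).map e₃)) rfl rfl (fun i => act_stay _)
      (act_stay _) ((act_move _ _).trans (right_cons _ _ _)) (zt_act (act_end _ _)))
      (ih (a :: L) (none :: U))
    rw [add_comm 1] at h2
    simpa [List.replicate_succ'] using h2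

theorem comb_rew (B : Tape (Γ₁ × Γ₂ × Option A)) (X : Fin (k₁ + 1) → Tape (Γ₁ × Γ₂ × Option A))
    (Y : Fin (k₂ + 1) → Tape (Γ₁ × Γ₂ × Option A)) (L : List A) : ∀ w : List A,
    Reach (comb M₁ M₂ e) (cfg e (.inr (.inl 4)) X B ((Tape.mk₂ (L.map e₃) (w.map e₃)).move .left) Y)
      (cfg e (.inr (.inl 2)) X B (Tape.mk₂ [] ((L.reverse ++ w).map e₃)) Y) (L.length + 1) := by
  induction L with
  | nil =>
    intro w
    exact comb_one M₁ M₂ e rfl rfl (fun i => act_stay _) (act_stay _)
      (act_back _) fun i => act_stay _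
  | cons a L ih =>
    intro w
    simp only [List.map_cons, left_cons]
    have h2 := Reach.trans (comb_one M₁ M₂ e (q := .inr (.inl 4)) rfl rfl
      (fun i => act_stay _) (act_stay _) (act_move _ _) fun i => act_stay _) (ih (a :: w))
    rw [add_comm 1] at h2
    simpa using h2

theorem comb_blk (X : Fin (k₁ + 1) → Tape (Γ₁ × Γ₂ × Option A)) (v w : List A) :
    ∀ (L : List A) (U : List (Option A)), Reach (comb M₁ M₂ e)
      (cfg e (.inr (.inl 2)) X (Tape.mk₂ (L.map e₃) (w.map e₃)) (Tape.mk₂ [] (v.map e₃))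
        (zt (Tape.mk₂ (U.map fun a => e₂ (M₂.enc a)) [])))
      (cfg e (.inr (.inl 5)) X (Tape.mk₂ ((w.reverse ++ L).map e₃) []) (Tape.mk₂ [] (v.map e₃))
        (zt ((Tape.mk₂ (((padn v.length w).reverse ++ U).map fun a => e₂ (M₂.enc a)) []).move
          .left))) (w.length * (2 * v.length + 3) + 1) := by
  induction w with
  | nil =>
    intro L U
    rw [List.length_nil, zero_mul]
    exact comb_one M₁ M₂ e rfl rfl (fun i => act_stay _) (act_stay _) (act_stay _)
      (zt_act (act_move _ _))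
  | cons a w ih =>
    intro L U
    have h1 := comb_rew M₁ M₂ e (Tape.mk₂ ((a :: L).map e₃) (w.map e₃)) X
      (zt (Tape.mk₂ ((List.replicate v.length none ++ some a :: U).map fun a => e₂ (M₂.enc a)) []))
      (v.reverse ++ []) []
    simp only [List.append_nil, List.reverse_reverse] at h1
    have h3 := comb_rep M₁ M₂ e (Tape.mk₂ ((a :: L).map e₃) (w.map e₃)) X v [] (some a :: U)
    rw [List.append_nil] at h3
    have h2 := ((Reach.trans (comb_one M₁ M₂ e (q := .inr (.inl 2))
      (B := Tape.mk₂ (L.map e₃) ((a :: w).map e₃)) rfl rfl (fun i => act_stay _)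
      ((act_move _ _).trans (right_cons _ _ _)) (act_stay _) (zt_act (act_end _ _))) h3).trans
      h1).trans (ih (a :: L) _)
    have e1 : (a :: w).length * (2 * v.length + 3) + 1 = 1 + (v.length + 1) +
        (v.reverse.length + 1) + (w.length * (2 * v.length + 3) + 1) := by
      rw [List.length_cons, List.length_reverse]
      ring
    rw [e1]
    simpa [padn] using h2

theorem comb_back₂ (B R : Tape (Γ₁ × Γ₂ × Option A))
    (X : Fin (k₁ + 1) → Tape (Γ₁ × Γ₂ × Option A)) (L : List (Option A)) : ∀ w : List (Option A),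
    Reach (comb M₁ M₂ e) (cfg e (.inr (.inl 5)) X B R (zt ((Tape.mk₂ (L.map fun a => e₂ (M₂.enc a))
        (w.map fun a => e₂ (M₂.enc a))).move .left)))
      (cfg e (.inr (.inr M₂.start)) X B R
        (zt (Tape.mk₂ [] ((L.reverse ++ w).map fun a => e₂ (M₂.enc a))))) (L.length + 1) := by
  induction L with
  | nil =>
    intro w
    exact comb_one M₁ M₂ e rfl (if_pos rfl) (fun i => act_stay _) (act_stay _) (act_stay _)
      (zt_act (act_back _))
  | cons a L ih =>
    intro w
    simp only [List.map_cons, left_cons]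
    have h2 := Reach.trans (comb_one M₁ M₂ e (q := .inr (.inl 5))
      (Y := zt (Tape.mk₂ (L.map fun a => e₂ (M₂.enc a)) ((a :: w).map fun a => e₂ (M₂.enc a)))) rfl
      (if_neg (M₂.enc_ne_blank a)) (fun i => act_stay _) (act_stay _) (act_stay _)
      (zt_act (act_move _ _))) (ih (a :: w))
    rw [add_comm 1] at h2
    simpa using h2

end Comb

theorem init_map {A Γ Γ' Q : Type} [Inhabited Γ] [Inhabited Γ'] {k : ℕ} (M : MultiTapeTM A Γ Q k)
    (f : PointedMap Γ Γ') (w : List A) :
    (fun i => ((M.init w).2 i).map f) = zt (Tape.mk₂ [] (w.map fun a => f (M.enc a))) := by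
  funext i
  by_cases hi : i = 0
  · simp only [MultiTapeTM.init, zt, if_pos hi, Tape.map_mk₁, List.map_map]
    rfl
  · simp only [MultiTapeTM.init, zt, if_neg hi, Tape.map_mk₁, List.map_nil]

open Classical in
theorem Dec.and_pad {A : Type} [Finite A] {P₁ : List A → Prop} {P₂ : List (Option A) → Prop}
    {T₁ : List A → ℕ} {T₂ : List (Option A) → ℕ} (h₁ : Dec P₁ T₁) (h₂ : Dec P₂ T₂) :
    Dec (fun w => P₁ w ∧ P₂ (padn w.length w)) fun w => 2 * w.length + 2 + T₁ w +
      if P₁ w then 4 * (w.length + 1) ^ 2 + T₂ (padn w.length w) else 0 := by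
  obtain ⟨Γ₁, Q₁, _, _, _, k₁, M₁, h₁⟩ := h₁
  obtain ⟨Γ₂, Q₂, _, _, _, k₂, M₂, h₂⟩ := h₂
  obtain ⟨e, he⟩ : ∃ e : Fin (k₁ + k₂ + 3 + 1) ≃ Ix k₁ k₂, e 0 = .inl 0 := by
    have e : Fin (k₁ + k₂ + 3 + 1) ≃ Ix k₁ k₂ := Fintype.equivOfCardEq (by simp; omega)
    exact ⟨e.trans (Equiv.swap (e 0) (.inl 0)), by simp⟩
  refine ⟨_, _, inferInstance, inferInstance, inferInstance, _, comb M₁ M₂ e, fun w => ?_⟩
  obtain ⟨t₁, b₁, a1, a2, a3⟩ := h₁ w
  obtain ⟨t₂, b₂, c1, c2, c3⟩ := h₂ (padn w.length w)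
  have h0 : (comb M₁ M₂ e).init w = cfg e (.inr (.inl 0)) (zt (Tape.mk₂ []
      (w.map fun a => e₁ (M₁.enc a)))) (Tape.mk₂ [] []) (Tape.mk₂ [] []) (zt (Tape.mk₂ [] [])) := by
    refine Prod.ext rfl (funext fun i => ?_)
    have h1 : i = 0 ↔ e i = .inl 0 := by rw [← he, e.injective.eq_iff]
    simp only [MultiTapeTM.init, cfg, h1]
    rcases e i with i | (_ | _) | i
    · simp only [Sum.inl.injEq]
      rfl
    · rfl
    · rfl
    · exact (ite_self _).symm
  have s1 := comb_copy M₁ M₂ e (zt (Tape.mk₂ [] [])) w []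
  have s2 := comb_back M₁ M₂ e (zt (Tape.mk₂ [] [])) (w.reverse ++ []) []
  have s3 := comb_run₁ M₁ M₂ e (Tape.mk₂ [] (w.map e₃)) (Tape.mk₂ [] (w.map e₃))
    (zt (Tape.mk₂ [] [])) t₁ (M₁.init w) a2.2
  rw [init_map] at s3
  simp only [List.append_nil, List.reverse_reverse, List.length_reverse] at s1 s2
  have s4 := (s1.trans s2).trans s3
  rw [List.map_nil, List.map_nil, ← h0] at s4
  cases b₁ with
  | false =>
    refine ⟨_, false, by dsimp only; omega, s4.haltsAt ?_, by simp [← a3]⟩
    exact if_pos a2.1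
  | true =>
    have s5 := comb_blk M₁ M₂ e (fun i => ((M₁.step^[t₁] (M₁.init w)).2 i).map e₁) w w [] []
    have s6 := comb_back₂ M₁ M₂ e (Tape.mk₂ ((w.reverse ++ []).map e₃) []) (Tape.mk₂ [] (w.map e₃))
      (fun i => ((M₁.step^[t₁] (M₁.init w)).2 i).map e₁) ((padn w.length w).reverse ++ []) []
    have s7 := comb_run₂ M₁ M₂ e (Tape.mk₂ ((w.reverse ++ []).map e₃) []) (Tape.mk₂ [] (w.map e₃))
      (fun i => ((M₁.step^[t₁] (M₁.init w)).2 i).map e₁) t₂ (M₂.init (padn w.length w)) c2.2
    rw [init_map] at s7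
    simp only [List.append_nil, List.reverse_reverse, List.length_reverse] at s5 s6 s7
    have s8 := (((s4.trans (comb_one M₁ M₂ e (by simp [comb, a2.1]) (by
      simp only [ctr, a2.1, reduceCtorEq, if_false]
      try rfl) (fun i => act_stay _) (act_stay _) (act_stay _) fun i => act_stay _)).trans s5).trans
      s6).trans s7
    refine ⟨_, b₂, ?_, s8.haltsAt c2.1, by simp [← a3, c3]⟩
    dsimp only
    rw [if_pos (a3.1 rfl), padn_length]
    nlinarith

end Pool.Agent.MP_0946c8_al
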