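import Pool.Agent.MP_0946c8_al.Z.Poly

/-! The word problem of a matrix group in characteristic zero is decidable in polynomial time. -/

set_option autoImplicit false

namespace Pool.Agent.MP_0946c8_al

open Finset

/-- zero tests for linear systems over `Z` are decidable in polynomial time -/
def SysZ (Z : Type) [CommSemiring Z] : Prop :=
  ∀ (A D E : Type) [Finite A] [Fintype D] (L : A → D → D → Z) (v : D → ℕ) (α : E → D),
    PDec fun w => ∀ e, run L (fun d => v d) w (α e) = 0

theorem run_snoc {S A D : Type} [CommSemiring S] [Fintype D] (L : A → D → D → S) (v : D → S)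
    (w : List A) (a : A) (d : D) : run L v (w ++ [a]) d = ∑ e, L a d e * run L v w e := by
  simp only [run, List.foldl_append, List.foldl_cons, List.foldl_nil]

theorem Sys.sysZ {S Z : Type} [CommSemiring S] [CommRing Z] (h : Sys S) (φ : S →+* Z)
    (hφ : Function.Injective φ) (hs : ∀ z, ∃ a b, z = φ a - φ b) : SysZ Z := by
  intro A D E _ _ L v α
  choose p q hpq using hs
  let L' : A → D × Bool → D × Bool → S := fun a d e =>
    if d.2 = e.2 then p (L a d.1 e.1) else q (L a d.1 e.1)
  let v' : D × Bool → ℕ := fun d => if d.2 = true then v d.1 else 0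
  have key : ∀ (w : List A) d, φ (run L' (fun d => v' d) w (d, true)) -
      φ (run L' (fun d => v' d) w (d, false)) = run L (fun d => v d) w d := by
    intro w
    induction w using List.reverseRecOn with
    | nil => intro d; simp [run, v']
    | append_singleton w a ih =>
      intro d
      simp only [run_snoc, Fintype.sum_prod_type, Fintype.sum_bool, map_sum, map_add, map_mul]
      rw [← sum_sub_distrib]
      refine sum_congr rfl fun e _ => ?_
      rw [← ih e, hpq (L a d e)]
      simp only [L', if_true, Bool.true_eq_false, Bool.false_eq_true, if_false]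
      ring
  obtain ⟨c, d, h1⟩ := h A _ E L' v' (fun e => (α e, true)) fun e => (α e, false)
  refine ⟨c, d, h1.mono (fun w => forall_congr' fun e => ?_) fun _ => le_rfl⟩
  rw [← key, sub_eq_zero, hφ.eq_iff]

theorem SysZ.frac {Z F : Type} [CommRing Z] [CommRing F] [IsDomain F] (h : SysZ Z) (ψ : Z →+* F)
    (hψ : Function.Injective ψ) (hs : ∀ y, ∃ p q, ψ q ≠ 0 ∧ ψ q * y = ψ p) : SysZ F := by
  classical
  intro A D E _ _ L v α
  have := Fintype.ofFinite A
  choose p q hq hpq using hs
  let f : Z := ∏ x : A × D × D, q (L x.1 x.2.1 x.2.2)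
  have hf : ψ f ≠ 0 := by
    rw [map_prod]
    exact prod_ne_zero_iff.2 fun x _ => hq _
  have hL : ∀ a d e, ∃ z, ψ z = ψ f * L a d e := fun a d e => by
    obtain ⟨c, hc⟩ : q (L a d e) ∣ f :=
      dvd_prod_of_mem (fun x : A × D × D => q (L x.1 x.2.1 x.2.2)) (mem_univ (a, d, e))
    exact ⟨c * p (L a d e), by rw [hc, map_mul, map_mul, ← hpq]; ring⟩
  choose L' hL' using hL
  have key : ∀ (w : List A) d, ψ (run L' (fun d => v d) w d) =
      ψ f ^ w.length * run L (fun d => v d) w d := by
    intro w
    induction w using List.reverseRecOn with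
    | nil => intro d; simp [run]
    | append_singleton w a ih =>
      intro d
      simp only [run_snoc, map_sum, map_mul, ih, hL', mul_sum, List.length_append,
        List.length_singleton]
      exact sum_congr rfl fun e _ => by ring
  obtain ⟨c, d, h1⟩ := h A D E L' v α
  refine ⟨c, d, h1.mono (fun w => forall_congr' fun e => ?_) fun _ => le_rfl⟩
  rw [← map_eq_zero_iff ψ hψ, key, mul_eq_zero, or_iff_right (pow_ne_zero _ hf)]

theorem SysZ.word {F A : Type} [CommRing F] [Finite A] {m : ℕ} (h : SysZ F)
    (γ : A → GL (Fin m) F) : PDec fun w => (w.map γ).prod = 1 := by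
  let L : A → Option (Fin m × Fin m) → Option (Fin m × Fin m) → F := fun a d e =>
    match d, e with
    | none, none => 1
    | none, some _ => 0
    | some p, none => ((γ a : Matrix (Fin m) (Fin m) F) - 1) p.1 p.2
    | some p, some p' => if p'.1 = p.1 then (γ a : Matrix (Fin m) (Fin m) F) p'.2 p.2 else 0
  let v : Option (Fin m × Fin m) → ℕ := fun d => d.elim 1 fun _ => 0
  have key : ∀ w : List A, run L (fun d => v d) w none = 1 ∧ ∀ p, run L (fun d => v d) w (some p) =
      (((w.map γ).prod : GL (Fin m) F) - 1 : Matrix (Fin m) (Fin m) F) p.1 p.2 := by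
    intro w
    induction w using List.reverseRecOn with
    | nil => simp [run, v]
    | append_singleton w a ih =>
      refine ⟨by rw [run_snoc, Fintype.sum_option, ih.1]; simp [L], fun p => ?_⟩
      rw [run_snoc, Fintype.sum_option, ih.1]
      simp only [ih.2, L, Fintype.sum_prod_type, ite_mul, zero_mul]
      rw [sum_comm]
      simp only [sum_ite_eq', mem_univ, if_true, List.map_append, List.prod_append,
        List.map_singleton, List.prod_singleton, Units.val_mul, Matrix.sub_apply, Matrix.mul_apply,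
        Matrix.one_apply, mul_sub, sum_sub_distrib, mul_ite, mul_one, mul_zero, sum_ite_eq]
      rw [sum_congr rfl (fun x _ => mul_comm ((γ a : Matrix (Fin m) (Fin m) F) x p.2) _)]
      ring
  obtain ⟨c, d, h1⟩ := h A _ (Fin m × Fin m) L v some
  refine ⟨c, d, h1.mono (fun w => ?_) fun _ => le_rfl⟩
  simp only [(key w).2]
  rw [← Units.val_eq_one, ← sub_eq_zero, ← Matrix.ext_iff, Prod.forall]
  rfl

theorem sysZ_int (s : ℕ) : SysZ (MvPolynomial (Fin s) ℤ) := by
  refine (sys_mv s).sysZ (MvPolynomial.map (Nat.castRingHom ℤ))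
    (MvPolynomial.map_injective _ Nat.cast_injective) fun z => ?_
  induction z using MvPolynomial.induction_on' with
  | monomial u c =>
    refine ⟨.monomial u c.toNat, .monomial u (-c).toNat, ?_⟩
    rw [MvPolynomial.map_monomial, MvPolynomial.map_monomial, ← map_sub]
    exact congrArg _ (Int.toNat_sub_toNat_neg c).symm
  | add p q hp hq =>
    obtain ⟨a, b, rfl⟩ := hp
    obtain ⟨c, d, rfl⟩ := hq
    exact ⟨a + c, b + d, by rw [map_add, map_add]; ring⟩

theorem sysZ_rat (s : ℕ) : SysZ (MvPolynomial (Fin s) ℚ) := by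
  refine (sysZ_int s).frac (MvPolynomial.map (Int.castRingHom ℚ))
    (MvPolynomial.map_injective _ Int.cast_injective) fun z => ?_
  induction z using MvPolynomial.induction_on' with
  | monomial u c =>
    refine ⟨.monomial u c.num, .C c.den, ?_, ?_⟩
    · rw [MvPolynomial.map_C]
      exact MvPolynomial.C_ne_zero.2 (by simp)
    · rw [MvPolynomial.map_monomial, MvPolynomial.map_C, MvPolynomial.C_mul_monomial]
      exact congrArg _ (by simp)
  | add p q hp hq =>
    obtain ⟨a, b, h1, h2⟩ := hp
    obtain ⟨c, d, h3, h4⟩ := hq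
    refine ⟨d * a + b * c, b * d, by rw [map_mul]; exact mul_ne_zero h1 h3, ?_⟩
    rw [map_add, map_mul, map_mul, map_mul, ← h2, ← h4]
    ring

theorem sysZ_frac (s : ℕ) : SysZ (FractionRing (MvPolynomial (Fin s) ℚ)) := by
  refine (sysZ_rat s).frac (algebraMap _ _) (IsFractionRing.injective _ _) fun y => ?_
  obtain ⟨⟨p, q⟩, h⟩ := IsLocalization.surj (nonZeroDivisors (MvPolynomial (Fin s) ℚ)) y
  exact ⟨p, q, (map_ne_zero_iff _ (IsFractionRing.injective _ _)).2 (nonZeroDivisors.coe_ne_zero q),
    by rw [mul_comm]; exact h⟩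

/-- the regular representation -/
theorem reg_rep (F S : Type) [Field F] [CommRing S] [Algebra F S] [Module.Finite F S] (m : ℕ) :
    ∃ (M : ℕ) (ρ : GL (Fin m) S →* GL (Fin M) F), Function.Injective ρ :=
  ⟨_, Units.map (Algebra.leftMulMatrix
      (Module.finBasis F (Matrix (Fin m) (Fin m) S))).toRingHom.toMonoidHom,
    Units.map_injective (Algebra.leftMulMatrix_injective _)⟩

theorem map_gl_injective {R S : Type} [CommRing R] [CommRing S] {m : ℕ} (f : R →+* S)
    (hf : Function.Injective f) :
    Function.Injective (Matrix.GeneralLinearGroup.map (n := Fin m) f) :=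
  Units.map_injective fun _ _ h => Matrix.map_injective hf h

/-- the entries of the generators and their inverses -/
def entries {K A : Type} [CommRing K] {m : ℕ} (γ : A → GL (Fin m) K) : Set K :=
  Set.range fun x : Bool × A × Fin m × Fin m =>
    ((if x.1 = true then γ x.2.1 else (γ x.2.1)⁻¹ : GL (Fin m) K) : Matrix (Fin m) (Fin m) K)
      x.2.2.1 x.2.2.2

theorem lift_gl {R K A : Type} [CommRing R] [CommRing K] {m : ℕ} (γ : A → GL (Fin m) K)
    (f : R →+* K) (hf : Function.Injective f) (h : ∀ y ∈ entries γ, ∃ x, f x = y) :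
    ∃ γ' : A → GL (Fin m) R, ∀ a, Matrix.GeneralLinearGroup.map f (γ' a) = γ a := by
  choose P hP using fun a i j => h _ ⟨(true, a, i, j), rfl⟩
  choose Q hQ using fun a i j => h _ ⟨(false, a, i, j), rfl⟩
  have h1 : ∀ a, f.mapMatrix (Matrix.of (P a)) = γ a := fun a => Matrix.ext fun i j => hP a i j
  have h2 : ∀ a, f.mapMatrix (Matrix.of (Q a)) = ((γ a)⁻¹ : GL (Fin m) K) :=
    fun a => Matrix.ext fun i j => hQ a i j
  have h3 : Function.Injective (f.mapMatrix (m := Fin m)) := fun _ _ h => Matrix.map_injective hf h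
  refine ⟨fun a => ⟨Matrix.of (P a), Matrix.of (Q a), h3 ?_, h3 ?_⟩, fun a => Units.ext (h1 a)⟩
  · rw [map_mul, h1, h2, map_one, Units.mul_inv]
  · rw [map_mul, h1, h2, map_one, Units.inv_mul]

theorem word_hom {G H A : Type} [Group G] [Group H] (ρ : G →* H) (γ : A → G) (w : List A) :
    (w.map fun a => ρ (γ a)).prod = ρ (w.map γ).prod := by
  rw [map_list_prod, List.map_map]
  rfl

theorem pdec_field {K A : Type} [Field K] [CharZero K] [Finite A] {m : ℕ}
    (γ : A → GL (Fin m) K) : PDec fun w => (w.map γ).prod = 1 := by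
  have hE : (entries γ).Finite := Set.finite_range _
  have : Algebra.FiniteType ℚ (Algebra.adjoin ℚ (entries γ)) := .adjoin_of_finite hE
  obtain ⟨s, g, hg, hi⟩ := exists_integral_inj_algHom_of_fg ℚ (Algebra.adjoin ℚ (entries γ))
  let g' : MvPolynomial (Fin s) ℚ →+* K :=
    (Algebra.adjoin ℚ (entries γ)).val.toRingHom.comp g.toRingHom
  have hg' : Function.Injective g' := Subtype.val_injective.comp hg
  let F := FractionRing (MvPolynomial (Fin s) ℚ)
  let _ : Algebra F K := (IsFractionRing.lift hg' : F →+* K).toAlgebra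
  have hint : ∀ y ∈ entries γ, IsIntegral F y := fun y hy => by
    obtain ⟨p, hp, h⟩ := hi ⟨y, Algebra.subset_adjoin hy⟩
    refine ⟨p.map (algebraMap _ F), hp.map _, ?_⟩
    have e : (algebraMap F K).comp (algebraMap _ F) = g' :=
      RingHom.ext fun x => IsFractionRing.lift_algebraMap hg' x
    rw [Polynomial.eval₂_map, e]
    have := congrArg (Algebra.adjoin ℚ (entries γ)).val.toRingHom h
    rw [Polynomial.hom_eval₂, map_zero] at this
    exact this
  have := Algebra.finite_adjoin_of_finite_of_isIntegral hE hint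
  obtain ⟨γ', h1⟩ := lift_gl γ (Algebra.adjoin F (entries γ)).val.toRingHom Subtype.val_injective
    fun y hy => ⟨⟨y, Algebra.subset_adjoin hy⟩, rfl⟩
  obtain ⟨M, ρ, hρ⟩ := reg_rep F (Algebra.adjoin F (entries γ)) m
  obtain ⟨c, d, h2⟩ := (sysZ_frac s).word fun a => ρ (γ' a)
  refine ⟨c, d, h2.mono (fun w => ?_) fun _ => le_rfl⟩
  rw [word_hom, map_eq_one_iff ρ hρ, ← map_eq_one_iff _ (map_gl_injective
    (Algebra.adjoin F (entries γ)).val.toRingHom Subtype.val_injective), ← word_hom, funext h1]

end Pool.Agent.MP_0946c8_al
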