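import Pool.Agent.MP_0946c8_al.Z.Field

/-! Jets at a closed point: a faithful rational quotient, or quotients of large growth. -/

set_option autoImplicit false

namespace Pool.Agent.MP_0946c8_al

open Finset

theorem jet_growth {G A : Type} [Group G] (γ : A → G) (ι : A → A) (hι : ∀ a, γ (ι a) = (γ a)⁻¹)
    (N : ℕ → Subgroup G) (hN : Antitone N) (hK : ∀ g, (∀ k, g ∈ N k) → g = 1)
    (hT : ∀ j z e, z ∈ N j → 0 < e → z ^ e ∈ N (j + 1) → z ∈ N (j + 1))
    (h : ∀ k, ∃ w : List A, (w.map γ).prod ∈ N k ∧ (w.map γ).prod ≠ 1) (D : ℕ) :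
    ∃ k L, 1 ≤ L ∧ ∀ r, ∃ F : Finset G, r ^ D ≤ F.card ∧
      (∀ g ∈ F, ∃ w : List A, w.length = 2 * (L * r) ∧ (w.map γ).prod = g) ∧
      ∀ g ∈ F, ∀ g' ∈ F, g⁻¹ * g' ∈ N k → g = g' := by
  classical
  obtain ⟨a⟩ : Nonempty A := by
    obtain ⟨w, -, hw⟩ := h 0
    rcases w with _ | ⟨a, w⟩
    · exact (hw (by simp)).elim
    · exact ⟨a⟩
  have hpad := exists_pad γ a (ι a) (by simp [hι])
  induction D with
  | zero =>
    refine ⟨0, 1, le_rfl, fun r => ⟨{1}, by simp, fun g hg => ?_, by simp⟩⟩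
    obtain ⟨w, h1, h2⟩ := hpad [] r
    exact ⟨w, by simpa using h1, by rw [h2, mem_singleton.1 hg]; simp⟩
  | succ D ih =>
    obtain ⟨k, L, hL, hF⟩ := ih
    obtain ⟨u, hu1, hu2⟩ := h k
    set z := (u.map γ).prod with hz
    have hex : ∃ j, z ∉ N (k + j + 1) := by
      by_contra hc
      refine hu2 (hK z fun j => hN (by omega : j ≤ k + j + 1) ?_)
      by_contra h1
      exact hc ⟨j, h1⟩
    have hj1 := Nat.find_spec hex
    have hj0 : z ∈ N (k + Nat.find hex) := by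
      rcases h0 : Nat.find hex with _ | j
      · exact hu1
      · by_contra h1
        exact Nat.find_min hex (by omega : j < Nat.find hex) h1
    set j := k + Nat.find hex with hj
    have hz2 : ∀ e e' : ℕ, (z ^ e)⁻¹ * z ^ e' ∈ N (j + 1) → ¬ e < e' := fun e e' h1 h2 => by
      obtain ⟨d, rfl⟩ := Nat.exists_eq_add_of_lt h2
      rw [add_assoc e, pow_add, inv_mul_cancel_left] at h1
      exact hj1 (hT j z _ hj0 d.succ_pos h1)
    refine ⟨j + 1, L + u.length, by omega, fun r => ?_⟩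
    obtain ⟨F, h1, h2, h3⟩ := hF r
    have key : ∀ g ∈ F, ∀ g' ∈ F, ∀ e e' : ℕ,
        (g * z ^ (2 * e))⁻¹ * (g' * z ^ (2 * e')) ∈ N (j + 1) → g = g' ∧ e = e' := by
      intro g hg g' hg' e e' h4
      have h5 : g = g' := by
        refine h3 g hg g' hg' ?_
        have := (N k).mul_mem ((N k).mul_mem ((N k).pow_mem hu1 (2 * e))
          (hN (by omega : k ≤ j + 1) h4)) ((N k).inv_mem ((N k).pow_mem hu1 (2 * e')))
        simpa [mul_assoc] using this
      subst h5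
      rw [mul_inv_rev, mul_assoc, inv_mul_cancel_left] at h4
      have h6 := hz2 _ _ h4
      have h7 := hz2 (2 * e') (2 * e) (by simpa using (N (j + 1)).inv_mem h4)
      exact ⟨rfl, by omega⟩
    refine ⟨(F ×ˢ range r).image fun p => p.1 * z ^ (2 * p.2), ?_, ?_, ?_⟩
    · rw [card_image_of_injOn, card_product, card_range, pow_succ]
      · exact Nat.mul_le_mul_right _ h1
      · rintro ⟨g, e⟩ hp ⟨g', e'⟩ hp' h4
        obtain ⟨h5, h6⟩ := key g (mem_product.1 hp).1 g' (mem_product.1 hp').1 e e'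
          (by rw [show g * z ^ (2 * e) = g' * z ^ (2 * e') from h4, inv_mul_cancel]
              exact one_mem _)
        rw [h5, h6]
    · intro x hx
      obtain ⟨⟨g, e⟩, hp, rfl⟩ := mem_image.1 hx
      obtain ⟨w, hw1, hw2⟩ := h2 g (mem_product.1 hp).1
      obtain ⟨d, rfl⟩ := Nat.exists_eq_add_of_le (mem_range.1 (mem_product.1 hp).2).le
      obtain ⟨w', hw3, hw4⟩ := exists_pow_word γ u (2 * e)
      obtain ⟨w'', hw5, hw6⟩ := hpad (w ++ w') (u.length * d)
      refine ⟨w'', ?_, by rw [hw6, List.map_append, List.prod_append, hw2, hw4]⟩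
      rw [hw5, List.length_append, hw1, hw3]
      ring
    · intro x hx y hy h4
      obtain ⟨⟨g, e⟩, hp, rfl⟩ := mem_image.1 hx
      obtain ⟨⟨g', e'⟩, hp', rfl⟩ := mem_image.1 hy
      obtain ⟨h5, h6⟩ := key g (mem_product.1 hp).1 g' (mem_product.1 hp').1 e e' h4
      rw [h5, h6]

theorem mem_jet {R : Type} [CommRing R] {m : ℕ} (I : Ideal R) (g : GL (Fin m) R) :
    g ∈ (Matrix.GeneralLinearGroup.map (n := Fin m) (Ideal.Quotient.mk I)).ker ↔
      ∀ i j, ((g : Matrix (Fin m) (Fin m) R) - 1) i j ∈ I := by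
  rw [MonoidHom.mem_ker, ← Units.val_eq_one, ← (Ideal.Quotient.mk I).mapMatrix.map_one,
    ← sub_eq_zero]
  change (Ideal.Quotient.mk I).mapMatrix (g : Matrix (Fin m) (Fin m) R) - _ = 0 ↔ _
  rw [← map_sub, ← Matrix.ext_iff]
  exact forall_congr' fun i => forall_congr' fun j => Ideal.Quotient.eq_zero_iff_mem

theorem one_add_pow_sq {S : Type} [Ring S] (y : S) (h : y * y = 0) (e : ℕ) :
    (1 + y) ^ e = 1 + e • y := by
  induction e with
  | zero => simp
  | succ e ih =>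
    rw [pow_succ, ih, add_mul, mul_add, mul_add, smul_mul_assoc, smul_mul_assoc, h, succ_nsmul]
    simp only [mul_one, one_mul, smul_zero, add_zero]
    abel

theorem exists_jets (R : Type) [CommRing R] [IsDomain R] [Algebra ℚ R] [Algebra.FiniteType ℚ R]
    (m : ℕ) : ∃ N : ℕ → Subgroup (GL (Fin m) R), Antitone N ∧ (∀ g, (∀ k, g ∈ N k) → g = 1) ∧
      (∀ j z e, z ∈ N j → 0 < e → z ^ e ∈ N (j + 1) → z ∈ N (j + 1)) ∧
      ∀ k, ∃ (M : ℕ) (ρ : GL (Fin m) R →* GL (Fin M) ℚ), ∀ g, ρ g = 1 ↔ g ∈ N k := by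
  obtain ⟨I, hI⟩ := Ideal.exists_maximal R
  have : IsNoetherianRing R := Algebra.FiniteType.isNoetherianRing ℚ R
  refine ⟨fun k => (Matrix.GeneralLinearGroup.map (Ideal.Quotient.mk (I ^ (k + 1)))).ker,
    fun k l hkl g hg => ?_, fun g hg => ?_, fun j z e hz he h => ?_, fun k => ?_⟩
  · exact (mem_jet _ g).2 fun i j =>
      Ideal.pow_le_pow_right (by omega) ((mem_jet _ g).1 hg i j)
  · rw [← Units.val_eq_one, ← sub_eq_zero]
    ext i j
    have h1 : ((g : Matrix (Fin m) (Fin m) R) - 1) i j ∈ ⨅ k : ℕ, I ^ k :=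
      Ideal.mem_iInf.2 fun k => Ideal.pow_le_pow_right k.le_succ ((mem_jet _ g).1 (hg k) i j)
    rwa [Ideal.iInf_pow_eq_bot_of_isDomain I hI.ne_top] at h1
  · let q := (Ideal.Quotient.mk (I ^ (j + 1 + 1))).mapMatrix (m := Fin m)
    have h1 := (mem_jet _ z).1 hz
    have h2 : q ((z : Matrix (Fin m) (Fin m) R) - 1) * q ((z : Matrix (Fin m) (Fin m) R) - 1) =
        0 := by
      rw [← map_mul]
      ext a b
      refine Ideal.Quotient.eq_zero_iff_mem.2 ?_
      rw [Matrix.mul_apply]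
      refine Ideal.sum_mem _ fun c _ => Ideal.pow_le_pow_right
        (by omega : j + 1 + 1 ≤ j + 1 + (j + 1)) ?_
      rw [pow_add]
      exact Ideal.mul_mem_mul (h1 a c) (h1 c b)
    have h3 := one_add_pow_sq _ h2 e
    have h4 : q ((z : Matrix (Fin m) (Fin m) R) ^ e) = 1 := by
      rw [← Units.val_pow_eq_pow_val]
      exact congrArg Units.val h
    rw [map_sub q _ 1, map_one, add_sub_cancel, ← map_pow, h4, left_eq_add,
      ← Nat.cast_smul_eq_nsmul ℚ] at h3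
    have h5 := congrArg (fun x => (e : ℚ)⁻¹ • x) h3
    simp only [smul_zero] at h5
    rw [inv_smul_smul₀ (by positivity), sub_eq_zero] at h5
    exact Units.ext h5
  · have h1 : Module.Finite ℚ (R ⧸ I) :=
      let _ := Ideal.Quotient.field I
      finite_of_finite_type_of_isJacobsonRing ℚ (R ⧸ I)
    have h2 : Algebra.IsIntegral ℚ (R ⧸ I ^ (k + 1)) := ⟨fun y => by
      obtain ⟨x, rfl⟩ := Ideal.Quotient.mkₐ_surjective ℚ _ y
      obtain ⟨p, hp, h⟩ := IsIntegral.of_finite ℚ (Ideal.Quotient.mkₐ ℚ I x)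
      refine ⟨p ^ (k + 1), hp.pow _, ?_⟩
      rw [← Polynomial.aeval_def, Polynomial.aeval_algHom_apply] at h ⊢
      rw [map_pow]
      exact Ideal.Quotient.eq_zero_iff_mem.2
        (Ideal.pow_mem_pow (Ideal.Quotient.eq_zero_iff_mem.1 h) _)⟩
    have h3 : Module.Finite ℚ (R ⧸ I ^ (k + 1)) := Algebra.IsIntegral.finite
    obtain ⟨M, ρ, hρ⟩ := reg_rep ℚ (R ⧸ I ^ (k + 1)) m
    exact ⟨M, ρ.comp (Matrix.GeneralLinearGroup.map (Ideal.Quotient.mk _)), fun g =>
      map_eq_one_iff ρ hρ⟩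

/-- either a faithful rational model, or rational quotients of arbitrarily large growth -/
theorem jet_dichotomy {K A : Type} [Field K] [CharZero K] [Finite A] {m : ℕ}
    (γ : A → GL (Fin m) K) (ι : A → A) (hι : ∀ a, γ (ι a) = (γ a)⁻¹) (D : ℕ) :
    ∃ (M : ℕ) (δ : A → GL (Fin M) ℚ), (∀ a, δ (ι a) = (δ a)⁻¹) ∧
      (∀ w : List A, (w.map γ).prod = 1 → (w.map δ).prod = 1) ∧
      ((∀ w : List A, (w.map δ).prod = 1 → (w.map γ).prod = 1) ∨
        ∃ L, 1 ≤ L ∧ ∀ r, ∃ F : Finset (GL (Fin M) ℚ), r ^ D ≤ F.card ∧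
          ∀ g ∈ F, ∃ w : List A, w.length = 2 * (L * r) ∧ (w.map δ).prod = g) := by
  classical
  have : Algebra.FiniteType ℚ (Algebra.adjoin ℚ (entries γ)) :=
    .adjoin_of_finite (Set.finite_range _)
  obtain ⟨γ', h1⟩ := lift_gl γ (Algebra.adjoin ℚ (entries γ)).val.toRingHom Subtype.val_injective
    fun y hy => ⟨⟨y, Algebra.subset_adjoin hy⟩, rfl⟩
  have hinj := map_gl_injective (m := m) (Algebra.adjoin ℚ (entries γ)).val.toRingHom
    Subtype.val_injective
  have hι' : ∀ a, γ' (ι a) = (γ' a)⁻¹ := fun a => hinj (by rw [map_inv, h1, h1, hι])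
  have hw : ∀ w : List A, (w.map γ).prod = 1 ↔ (w.map γ').prod = 1 := fun w => by
    rw [← map_eq_one_iff _ hinj, ← word_hom, funext h1]
  obtain ⟨N, hN, hK, hT, hρ⟩ := exists_jets (Algebra.adjoin ℚ (entries γ)) m
  by_cases h : ∀ k, ∃ w : List A, (w.map γ').prod ∈ N k ∧ (w.map γ').prod ≠ 1
  · obtain ⟨k, L, hL, hF⟩ := jet_growth γ' ι hι' N hN hK hT h D
    obtain ⟨M, ρ, h2⟩ := hρ k
    refine ⟨M, fun a => ρ (γ' a), fun a => by simp only [hι', map_inv], fun w h3 => by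
      rw [word_hom, (hw w).1 h3, map_one], .inr ⟨L, hL, fun r => ?_⟩⟩
    obtain ⟨F, h3, h4, h5⟩ := hF r
    refine ⟨F.image ρ, ?_, fun x hx => ?_⟩
    · rw [card_image_of_injOn]
      · exact h3
      · intro g hg g' hg' e
        exact h5 g hg g' hg' ((h2 _).1 (by rw [map_mul, map_inv, e, inv_mul_cancel]))
    · obtain ⟨g, hg, rfl⟩ := mem_image.1 hx
      obtain ⟨w, h6, h7⟩ := h4 g hg
      exact ⟨w, h6, by rw [word_hom, h7]⟩
  · obtain ⟨k, hk⟩ := not_forall.1 h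
    obtain ⟨M, ρ, h2⟩ := hρ k
    refine ⟨M, fun a => ρ (γ' a), fun a => by simp only [hι', map_inv], fun w h3 => by
      rw [word_hom, (hw w).1 h3, map_one], .inl fun w h3 => (hw w).2 ?_⟩
    by_contra h4
    rw [word_hom] at h3
    exact hk ⟨w, (h2 _).1 h3, h4⟩

end Pool.Agent.MP_0946c8_al
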