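import Pool.Agent.MP_0946c8_al.Z.Prob

/-! Linear average time for matrix groups over fields of characteristic zero. -/

set_option autoImplicit false

namespace Pool.Agent.MP_0946c8_al

open Finset

theorem Dec.solves {G A : Type} [Group G] {γ : A → G} {T : List A → ℕ}
    (h : Dec (fun w => (w.map γ).prod = 1) T) : ∃ T', Solves γ T' ∧ ∀ w, T' w ≤ T w := by
  obtain ⟨Γ, Q, i1, i2, i3, k, M, h⟩ := h
  choose t b h1 h2 h3 using h
  exact ⟨t, ⟨Γ, Q, i1, i2, i3, k, M, fun w => ⟨b w, h2 w, h3 w⟩⟩, h1⟩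

theorem Solves.dec {G A : Type} [Group G] {γ : A → G} {T : List A → ℕ} (h : Solves γ T) :
    Dec (fun w => (w.map γ).prod = 1) T := by
  obtain ⟨Γ, Q, i1, i2, i3, k, M, h⟩ := h
  refine ⟨Γ, Q, i1, i2, i3, k, M, fun w => ?_⟩
  obtain ⟨b, h1, h2⟩ := h w
  exact ⟨_, b, le_rfl, h1, h2⟩

theorem padn_prod {G A : Type} [Group G] (γ : A → G) (n : ℕ) (w : List A) :
    ((padn n w).map fun o => o.elim 1 γ).prod = (w.map γ).prod := by
  induction w with
  | nil => rfl
  | cons a w ih =>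
    simp only [padn, List.flatMap_cons, List.map_append, List.prod_append, List.map_cons,
      List.prod_cons, List.map_replicate, List.prod_replicate, Option.elim, one_pow,
      mul_one] at ih ⊢
    rw [ih]

theorem main_charZero {K A : Type} [Field K] [CharZero K] [Fintype A] {m : ℕ}
    (γ : A → GL (Fin m) K) (ι : A ≃ A) (hι : ∀ a, γ (ι a) = (γ a)⁻¹) :
    ∃ T : List A → ℕ, Solves γ T ∧
      (fun n : ℕ => (∑ w : Fin n → A, (T (List.ofFn w) : ℝ)) / (Fintype.card A : ℝ) ^ n)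
        =O[Filter.atTop] (fun n : ℕ => (n : ℝ)) := by
  classical
  obtain ⟨c, d, hP⟩ := pdec_field fun o : Option A => o.elim 1 γ
  obtain ⟨M, δ, h1, h2, h3⟩ := jet_dichotomy γ ι hι (4 * (2 * d + 2))
  obtain ⟨T, hT, hO⟩ := main_theorem δ ι h1
  rcases h3 with h3 | ⟨L, hL, hF⟩
  · obtain ⟨Γ, Q, i1, i2, i3, k, N, h⟩ := hT
    refine ⟨T, ⟨Γ, Q, i1, i2, i3, k, N, fun w => ?_⟩, hO⟩
    obtain ⟨b, h4, h5⟩ := h w
    exact ⟨b, h4, h5.trans ⟨h3 w, h2 w⟩⟩
  have : Nonempty A := by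
    obtain ⟨F, h3, h4⟩ := hF 1
    obtain ⟨g, hg⟩ := card_pos.1 (lt_of_lt_of_le (by simp) h3)
    obtain ⟨w, h5, -⟩ := h4 g hg
    rcases w with _ | ⟨a, w⟩
    · rw [List.length_nil] at h5
      omega
    · exact ⟨a⟩
  obtain ⟨C, hC⟩ := fast_decay δ ι h1 _ L hL hF
  obtain ⟨T', h4, h5⟩ := ((hT.dec.and_pad hP).mono (P' := fun w => (w.map γ).prod = 1)
    (T' := fun w => 2 * w.length + 2 + T w +
      if (w.map δ).prod = 1 then (4 + c) * (w.length + 1) ^ (2 * d + 2) else 0)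
    (fun w => by rw [padn_prod]; exact and_iff_right_of_imp (h2 w)) fun w => by
      refine Nat.add_le_add_left ?_ _
      by_cases h : (w.map δ).prod = 1
      · rw [if_pos h, if_pos h, padn_length]
        exact pad_time c d _
      · rw [if_neg h, if_neg h]).solves
  obtain ⟨B, hB⟩ := hO.bound
  refine ⟨T', h4, Asymptotics.IsBigO.of_bound (4 + B + (4 + c) * |C|) ?_⟩
  filter_upwards [Filter.eventually_ge_atTop 16, hB] with n hn hb
  have hn' : (16 : ℝ) ≤ n := by exact_mod_cast hn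
  have hA : (0 : ℝ) < (Fintype.card A : ℝ) ^ n := by
    have : (0 : ℝ) < Fintype.card A := by exact_mod_cast Fintype.card_pos
    positivity
  rw [Real.norm_of_nonneg (by positivity), Real.norm_of_nonneg (by positivity),
    div_le_iff₀ hA] at hb ⊢
  have h6 : ∑ w : Fin n → A, (T' (List.ofFn w) : ℝ) ≤ (2 * n + 2) * (Fintype.card A : ℝ) ^ n +
      ∑ w : Fin n → A, (T (List.ofFn w) : ℝ) + (4 + c) *
        (((univ.filter (fun w : Fin n → A => ((List.ofFn w).map δ).prod = 1)).card : ℝ) *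
          ((n : ℝ) + 1) ^ (2 * d + 2)) := by
    have e : ((Fintype.card A : ℝ)) ^ n = ∑ _w : Fin n → A, (1 : ℝ) := by simp
    rw [e, card_filter]
    push_cast
    rw [sum_mul, mul_sum, mul_sum, ← sum_add_distrib, ← sum_add_distrib]
    refine sum_le_sum fun w _ => ?_
    have := (Nat.cast_le (α := ℝ)).2 (h5 (List.ofFn w))
    rw [List.length_ofFn] at this
    refine this.trans (le_of_eq ?_)
    split_ifs <;> simp
  have h7 : C * (Fintype.card A : ℝ) ^ n ≤ |C| * n * (Fintype.card A : ℝ) ^ n :=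
    mul_le_mul_of_nonneg_right ((le_abs_self C).trans
      (le_mul_of_one_le_right (abs_nonneg C) (by linarith))) hA.le
  have h8 := mul_le_mul_of_nonneg_left ((hC n hn).trans h7) (by positivity : (0 : ℝ) ≤ 4 + c)
  have h9 : (2 * n + 2) * (Fintype.card A : ℝ) ^ n ≤ 4 * n * (Fintype.card A : ℝ) ^ n :=
    mul_le_mul_of_nonneg_right (by linarith) hA.le
  linarith

end Pool.Agent.MP_0946c8_al
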