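import Pool.Agent.MP_0946c8_al.Z.Comb

/-! Polynomial time deciders for linear systems over polynomial semirings. -/

set_option autoImplicit false

namespace Pool.Agent.MP_0946c8_al

open Finset Polynomial

theorem Dec.mono {A : Type} {P P' : List A → Prop} {T T' : List A → ℕ} (h : Dec P T)
    (hP : ∀ w, P w ↔ P' w) (hT : ∀ w, T w ≤ T' w) : Dec P' T' := by
  obtain ⟨Γ, Q, i1, i2, i3, k, M, h⟩ := h
  refine ⟨Γ, Q, i1, i2, i3, k, M, fun w => ?_⟩
  obtain ⟨t, b, h1, h2, h3⟩ := h w
  exact ⟨t, b, h1.trans (hT w), h2, h3.trans (hP w)⟩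

theorem dec_true {A : Type} [Finite A] : Dec (fun _ : List A => True) fun _ => 0 :=
  ⟨Option A, Unit, inferInstance, inferInstance, inferInstance, 0,
    ⟨some, Option.some_injective _, fun _ => Option.some_ne_none _, (), fun _ => some true,
      fun q h => (q, fun i => (h i, none))⟩,
    fun _ => ⟨0, true, le_rfl, ⟨rfl, fun _ h => absurd h (Nat.not_lt_zero _)⟩, by simp⟩⟩

/-- decidable in polynomial time -/
def PDec {A : Type} (P : List A → Prop) : Prop :=
  ∃ c d : ℕ, Dec P fun w => c * (w.length + 1) ^ d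

theorem pad_time (c d n : ℕ) :
    4 * (n + 1) ^ 2 + c * (n * (n + 1) + 1) ^ d ≤ (4 + c) * (n + 1) ^ (2 * d + 2) := by
  have h1 : (n + 1) ^ 2 ≤ (n + 1) ^ (2 * d + 2) := Nat.pow_le_pow_right (by omega) (by omega)
  have h2 : (n * (n + 1) + 1) ^ d ≤ (n + 1) ^ (2 * d + 2) :=
    calc _ ≤ ((n + 1) ^ 2) ^ d := Nat.pow_le_pow_left (by nlinarith) d
      _ = (n + 1) ^ (2 * d) := (pow_mul _ _ _).symm
      _ ≤ _ := Nat.pow_le_pow_right (by omega) (by omega)
  rw [add_mul]
  exact add_le_add (Nat.mul_le_mul_left _ h1) (Nat.mul_le_mul_left _ h2)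

theorem PDec.pad {A : Type} [Finite A] {P : List (Option A) → Prop} {P' : List A → Prop}
    (h : PDec P) (hP : ∀ w, P (padn w.length w) ↔ P' w) : PDec P' := by
  obtain ⟨c, d, h⟩ := h
  refine ⟨6 + c, 2 * d + 2, (dec_true.and_pad h).mono (fun w => by simp [hP]) fun w => ?_⟩
  have h1 := pad_time c d w.length
  have h2 : w.length + 1 ≤ (w.length + 1) ^ (2 * d + 2) := Nat.le_self_pow (by omega) _
  rw [if_pos trivial, padn_length]
  nlinarith

/-- the orbit of a vector under a word of matrices -/
def run {S A D : Type} [CommSemiring S] [Fintype D] (L : A → D → D → S) (v : D → S)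
    (w : List A) : D → S := w.foldl (fun u a d => ∑ e, L a d e * u e) v

theorem run_map {S S' A D : Type} [CommSemiring S] [CommSemiring S'] [Fintype D] (φ : S →+* S')
    (L : A → D → D → S) (w : List A) : ∀ (v : D → S) (d : D),
    φ (run L v w d) = run (fun a d e => φ (L a d e)) (fun d => φ (v d)) w d := by
  induction w with
  | nil => exact fun _ _ => rfl
  | cons a w ih =>
    intro v d
    have := ih (fun d => ∑ e, L a d e * v e) d
    simp only [map_sum, map_mul] at this
    exact this

theorem run_le {A D : Type} [Fintype D] (L : A → D → D → ℕ) (B : ℕ)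
    (hB : ∀ a d, ∑ e, L a d e ≤ B) (w : List A) : ∀ (v : D → ℕ) (K : ℕ), (∀ d, v d ≤ K) →
    ∀ d, run L v w d ≤ B ^ w.length * K := by
  induction w with
  | nil => intro v K h d; simpa [run] using h d
  | cons a w ih =>
    intro v K h d
    rw [List.length_cons, pow_succ, mul_assoc]
    exact ih (lin L a v) _ (lin_le L B hB a v K h) d

/-- equality tests for linear systems over `S` are decidable in polynomial time -/
def Sys (S : Type) [CommSemiring S] : Prop :=
  ∀ (A D E : Type) [Finite A] [Fintype D] (L : A → D → D → S) (v : D → ℕ) (α β : E → D),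
    PDec fun w => ∀ e, run L (fun d => v d) w (α e) = run L (fun d => v d) w (β e)

theorem sys_nat : Sys ℕ := by
  classical
  intro A D E _ _ L v α β
  obtain ⟨B, hB⟩ := (Set.finite_range fun p : A × D => ∑ e, L p.1 p.2 e).bddAbove
  obtain ⟨K, hK⟩ := (Set.finite_range v).bddAbove
  have hB' : ∀ a d, ∑ e, L a d e ≤ B := fun a d => hB ⟨(a, d), rfl⟩
  let v0 : D → Fin (K + 1 + 1) := fun d => ⟨v d, by have := hK ⟨d, rfl⟩; omega⟩
  refine ⟨2 * (B + 1), 2, _, _, inferInstance, inferInstance, inferInstance, 0,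
    sweepTM (0 : D → Fin (B + 1)) (v0, true) (0, true) (dtr L (K + 1) B) (dout (K + 1) α β),
    fun w => ?_⟩
  obtain ⟨t, b, h1, h2, h3⟩ := digit_machine L (K + 1) B hB' (by omega) v0 α β w
  refine ⟨t, b, h3.trans ?_, h1, h2⟩
  refine (Nat.mul_le_mul_left _ (@card_filter_le _ _ _ (_))).trans ?_
  rw [card_range]
  nlinarith [Nat.zero_le (w.length * w.length), Nat.zero_le w.length,
    Nat.zero_le (B * w.length), Nat.zero_le B]

theorem Sys.equiv {S S' : Type} [CommSemiring S] [CommSemiring S'] (h : Sys S) (φ : S' →+* S)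
    (hφ : Function.Injective φ) : Sys S' := by
  intro A D E _ _ L v α β
  obtain ⟨c, d, h1⟩ := h A D E (fun a d e => φ (L a d e)) v α β
  refine ⟨c, d, h1.mono (fun w => forall_congr' fun e => ?_) fun _ => le_rfl⟩
  rw [← hφ.eq_iff, run_map, run_map]
  simp only [map_natCast]

/-- uniqueness of remainders -/
def Rem {S : Type} [CommSemiring S] (ν : S →+* ℕ) : Prop :=
  ∀ (z : ℕ) (a b c c' : S), ν a < z → ν b < z → a + z * c = b + z * c' → a = b ∧ c = c'

theorem Rem.poly {S : Type} [CommSemiring S] {ν : S →+* ℕ} (h : Rem ν) (z n : ℕ) :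
    ∀ p q : S[X], p.natDegree ≤ n → q.natDegree ≤ n → ν (p.eval 1) < z → ν (q.eval 1) < z →
      p.eval (z : S) = q.eval (z : S) → p = q := by
  have key : ∀ (p : S[X]) (x : S), p.eval x = p.coeff 0 + x * p.divX.eval x := fun p x => by
    conv_lhs => rw [← X_mul_divX_add p]
    rw [eval_add, eval_mul, eval_X, eval_C, add_comm]
  induction n with
  | zero =>
    intro p q hp hq _ _ e
    rw [eq_C_of_natDegree_le_zero hp, eq_C_of_natDegree_le_zero hq] at e ⊢
    rw [eval_C, eval_C] at e
    rw [e]
  | succ n ih =>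
    intro p q hp hq h1 h2 e
    rw [key, one_mul, map_add] at h1 h2
    rw [key p, key q] at e
    obtain ⟨e1, e2⟩ := h z _ _ _ _ (by omega) (by omega) e
    have e3 := ih p.divX q.divX (by rw [natDegree_divX_eq_natDegree_tsub_one]; omega)
      (by rw [natDegree_divX_eq_natDegree_tsub_one]; omega) (by omega) (by omega) e2
    rw [← X_mul_divX_add p, ← X_mul_divX_add q, e1, e3]

section Step

variable {S A D : Type} [CommSemiring S] [Fintype D] [DecidableEq D]

/-- the system after the elimination of the variable -/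
def elimL (L : A → D → D → S[X]) (c : ℕ) (z : S) :
    Option A → (D × Fin (c + 1)) ⊕ D → (D × Fin (c + 1)) ⊕ D → S
  | some a, .inl p, .inr e => z ^ (p.2 : ℕ) * (L a p.1 e).coeff p.2
  | some a, .inr d, .inr e => ∑ j : Fin (c + 1), z ^ (j : ℕ) * (L a d e).coeff j
  | some _, _, .inl _ => 0
  | none, .inl p, .inl q => if q = p then z ^ (p.2 : ℕ) else 0
  | none, .inr d, .inl q => if q.1 = d then z ^ (q.2 : ℕ) else 0
  | none, _, .inr _ => 0

/-- the state inside a block -/
def blk {c : ℕ} (y : D × Fin (c + 1) → S) (x : S) : (D × Fin (c + 1)) ⊕ D → S :=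
  Sum.elim (fun p => x ^ (p.2 : ℕ) * y p) fun d => ∑ j : Fin (c + 1), x ^ (j : ℕ) * y (d, j)

theorem elim_rep (L : A → D → D → S[X]) (c : ℕ) (z : S) (y : D × Fin (c + 1) → S) (n : ℕ) :
    ∀ x : S, run (elimL L c z) (blk y x) (List.replicate n none) = blk y (z ^ n * x) := by
  induction n with
  | zero => intro x; simp [run]
  | succ n ih =>
    intro x
    have h : (fun d => ∑ e, elimL L c z none d e * blk y x e) = blk y (z * x) := by
      funext d
      rcases d with p | d
      · simp [elimL, blk, Fintype.sum_sum_type, mul_pow, mul_assoc]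
      · simp only [elimL, blk, Fintype.sum_sum_type, Fintype.sum_prod_type, Sum.elim_inl,
          Sum.elim_inr, zero_mul, sum_const_zero, add_zero, ite_mul, mul_pow, mul_assoc]
        rw [sum_comm]
        simp
    rw [pow_succ, mul_assoc, ← ih, ← h]
    rfl

theorem elim_run (L : A → D → D → S[X]) (c : ℕ) (hc : ∀ a d e, (L a d e).natDegree ≤ c) (z : S)
    (n : ℕ) (w : List A) : ∀ (u : (D × Fin (c + 1)) ⊕ D → S) (d : D),
    run (elimL L c z) u (padn n w) (.inr d) =
      run (fun a d e => (L a d e).eval (z ^ (n + 1))) (fun d => u (.inr d)) w d := by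
  induction w with
  | nil => exact fun _ _ => rfl
  | cons a w ih =>
    intro u d
    have h : (fun d => ∑ e, elimL L c z (some a) d e * u e) =
        blk (fun p => ∑ e, (L a p.1 e).coeff p.2 * u (.inr e)) z := by
      funext d
      rcases d with p | d
      · simp [elimL, blk, Fintype.sum_sum_type, mul_sum, mul_assoc]
      · simp only [elimL, blk, Fintype.sum_sum_type, Sum.elim_inr, zero_mul, sum_const_zero,
          zero_add, mul_sum, sum_mul, mul_assoc]
        exact sum_comm
    have h1 : run (elimL L c z) u (padn n (a :: w)) = run (elimL L c z)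
        (run (elimL L c z) (fun d => ∑ e, elimL L c z (some a) d e * u e) (List.replicate n none))
        (padn n w) := by
      simp only [run, padn, List.flatMap_cons, List.foldl_append, List.foldl_cons]
    rw [h1, h, elim_rep, ih, ← pow_succ]
    refine congrArg (fun v => run _ v w d) (funext fun d => ?_)
    simp only [blk, Sum.elim_inr, mul_sum]
    rw [sum_comm]
    refine sum_congr rfl fun e _ => ?_
    rw [eval_eq_sum_range' (Nat.lt_succ_of_le (hc a d e)), sum_range, sum_mul]
    exact sum_congr rfl fun j _ => by ring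

end Step

theorem Sys.poly {S : Type} [CommSemiring S] (h : Sys S) {ν : S →+* ℕ} (hν : Rem ν) :
    Sys S[X] := by
  classical
  intro A D E _ _ L v α β
  obtain ⟨c, hc⟩ := (Set.finite_range fun p : A × D × D => (L p.1 p.2.1 p.2.2).natDegree).bddAbove
  obtain ⟨B, hB⟩ := (Set.finite_range fun p : A × D => ∑ e, ν ((L p.1 p.2 e).eval 1)).bddAbove
  obtain ⟨K, hK⟩ := (Set.finite_range v).bddAbove
  refine (h (Option A) _ E (elimL L c ((B + K + 1 : ℕ) : S)) (Sum.elim (fun _ => 0) v)
    (fun e => .inr (α e)) fun e => .inr (β e)).pad fun w => forall_congr' fun e => ?_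
  have h1 : ∀ d, run (elimL L c ((B + K + 1 : ℕ) : S)) (fun d => ((Sum.elim (fun _ => 0) v d : ℕ) : S))
      (padn w.length w) (.inr d) =
      (run L (fun d => v d) w d).eval (((B + K + 1) ^ (w.length + 1) : ℕ) : S) := fun d => by
    rw [elim_run L c fun a d e => hc ⟨(a, d, e), rfl⟩, Nat.cast_pow]
    have := run_map (evalRingHom (((B + K + 1 : ℕ) : S) ^ (w.length + 1))) L w (fun d => v d) d
    simp only [map_natCast] at this
    exact this.symm
  have h2 : ∀ d, ν ((run L (fun d => v d) w d).eval 1) < (B + K + 1) ^ (w.length + 1) := fun d => by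
    have h3 := run_map (ν.comp (evalRingHom 1)) L w (fun d => v d) d
    simp only [map_natCast] at h3
    refine lt_of_eq_of_lt h3 ((run_le _ B (fun a d => hB ⟨(a, d), rfl⟩) w _ K
      (fun d => hK ⟨d, rfl⟩) d).trans_lt ?_)
    rw [pow_succ]
    exact Nat.mul_lt_mul_of_le_of_lt (Nat.pow_le_pow_left (by omega) _) (by omega) (by positivity)
  rw [h1, h1]
  exact ⟨hν.poly _ _ _ _ (le_max_left _ _) (le_max_right _ _) (h2 _) (h2 _), fun e => by rw [e]⟩

theorem rem_mv (σ : Type) : Rem (MvPolynomial.eval (fun _ : σ => (1 : ℕ))) := by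
  have h : ∀ (a : MvPolynomial σ ℕ) m, a.coeff m ≤ MvPolynomial.eval (fun _ => 1) a := fun a m => by
    rw [MvPolynomial.eval_eq]
    simp only [one_pow, prod_const_one, mul_one]
    by_cases hm : m ∈ a.support
    · exact single_le_sum (f := fun m => a.coeff m) (fun _ _ => Nat.zero_le _) hm
    · rw [MvPolynomial.notMem_support_iff.1 hm]
      exact Nat.zero_le _
  intro z a b c c' ha hb e
  have key : ∀ m, a.coeff m = b.coeff m ∧ c.coeff m = c'.coeff m := fun m => by
    have h1 := congrArg (MvPolynomial.coeff m) e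
    rw [← MvPolynomial.C_eq_coe_nat, MvPolynomial.coeff_add, MvPolynomial.coeff_add,
      MvPolynomial.coeff_C_mul, MvPolynomial.coeff_C_mul, Nat.cast_id] at h1
    have h2 := (h a m).trans_lt ha
    have h3 := (h b m).trans_lt hb
    have h4 := congrArg (· % z) h1
    simp only [Nat.add_mul_mod_self_left, Nat.mod_eq_of_lt h2, Nat.mod_eq_of_lt h3] at h4
    exact ⟨h4, Nat.eq_of_mul_eq_mul_left (by omega : 0 < z) (by omega)⟩
  exact ⟨MvPolynomial.ext _ _ fun m => (key m).1, MvPolynomial.ext _ _ fun m => (key m).2⟩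

theorem sys_mv (s : ℕ) : Sys (MvPolynomial (Fin s) ℕ) := by
  induction s with
  | zero =>
    exact sys_nat.equiv (MvPolynomial.isEmptyRingEquiv ℕ (Fin 0)).toRingHom
      (MvPolynomial.isEmptyRingEquiv ℕ (Fin 0)).injective
  | succ s ih =>
    exact (ih.poly (rem_mv _)).equiv (MvPolynomial.finSuccEquiv ℕ s).toRingEquiv.toRingHom
      (MvPolynomial.finSuccEquiv ℕ s).injective

end Pool.Agent.MP_0946c8_al
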