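import Pool.Agent.MP_0946c8_al.Z.Jet

/-! Large growth gives fast polynomial decay of the return probability. -/

set_option autoImplicit false

namespace Pool.Agent.MP_0946c8_al

open Finset

open Classical in
theorem return_geom {H A : Type} [Group H] [Fintype H] [Fintype A] [Nonempty A] (φ : A → H)
    (ι : A ≃ A) (hι : ∀ a, φ (ι a) = (φ a)⁻¹) (r : ℕ) (hr : 1 ≤ r) (T : Finset H)
    (hT0 : 0 < T.card) (hT : ∀ g ∈ T, ∃ w : List A, w.length = 2 * r ∧ (w.map φ).prod = g)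
    (i n : ℕ) (hn : 2 * i ≤ n) :
    ((univ.filter (fun w : Fin n → A => ((List.ofFn w).map φ).prod = 1)).card : ℝ) ≤
      (1 / T.card + (1 - 1 / ((r : ℝ) ^ 2 * (Fintype.card A : ℝ) ^ 2)) ^ i) *
        (Fintype.card A : ℝ) ^ n := by
  have hA : (0 : ℝ) < Fintype.card A := by exact_mod_cast Fintype.card_pos
  have hA1 : (1 : ℝ) ≤ Fintype.card A := by exact_mod_cast Fintype.card_pos
  have hr1 : (1 : ℝ) ≤ r := by exact_mod_cast hr
  let δ : H → ℝ := fun x => if x = 1 then 1 else 0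
  let q : ℕ → H → ℝ := fun i => (avg φ)^[i] δ
  have hq : ∀ i, q (i + 1) = avg φ (q i) := fun i => Function.iterate_succ_apply' _ _ _
  have hnn : ∀ i x, 0 ≤ q i x := by
    intro i
    induction i with
    | zero => intro x; simp only [q, δ, Function.iterate_zero, id]; split_ifs <;> norm_num
    | succ i ih =>
      intro x
      rw [hq]
      exact div_nonneg (Finset.sum_nonneg fun a _ => ih _) hA.le
  have hsum : ∀ i, ∑ x, q i x = 1 := by
    intro i
    induction i with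
    | zero => simp [q, δ]
    | succ i ih =>
      rw [hq]
      simp only [avg, ← Finset.sum_div]
      rw [Finset.sum_comm]
      simp only [sum_translate (q i), ih]
      simp
  let u : ℕ → ℝ := fun i => ∑ x, q i x * q i x
  have hanti : Antitone u := by
    apply antitone_nat_of_succ_le
    intro i
    have h1 := avg_energy φ ι hι (q i)
    have h2 : 0 ≤ ∑ a, ∑ b, disp (q i) (φ a * φ b) :=
      Finset.sum_nonneg fun a _ => Finset.sum_nonneg fun b _ => disp_nonneg _ _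
    rw [← h1, ← hq] at h2
    have h3 := nonneg_of_mul_nonneg_right h2 (by positivity)
    simp only [u]
    linarith
  set κ : ℝ := (r : ℝ) ^ 2 * (Fintype.card A : ℝ) ^ 2 with hκ
  have hκ1 : 1 ≤ κ := one_le_mul_of_one_le_of_one_le (one_le_pow₀ hr1) (one_le_pow₀ hA1)
  have hTpos : (0 : ℝ) < T.card := by exact_mod_cast hT0
  have hx : 0 ≤ 1 - 1 / κ := sub_nonneg.2 (div_le_one_of_le₀ hκ1 (by positivity))
  have hdec : ∀ i, u i - 1 / T.card ≤ (1 - 1 / κ) ^ i := by
    intro i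
    induction i with
    | zero =>
      have : u 0 = 1 := by simp [u, q, δ]
      rw [this, pow_zero, sub_le_self_iff]
      positivity
    | succ i ih =>
      have h1 := poincare φ ι hι (q i) (hnn i) (hsum i) r T hT
      rw [← hq] at h1
      have h3 : u i ≤ 1 / (T.card : ℝ) + κ * (u i - u (i + 1)) := by
        apply le_of_mul_le_mul_left _ hTpos
        rw [mul_add, mul_one_div_cancel hTpos.ne']
        exact h1
      rw [pow_succ']
      refine le_trans ?_ (mul_le_mul_of_nonneg_left ih hx)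
      apply le_of_mul_le_mul_left _ (by positivity : 0 < κ)
      rw [← mul_assoc, mul_sub κ 1, mul_one_div_cancel (by positivity)]
      linarith
  have hadj : ∀ i j, ∑ x, q (i + j) x * δ x = ∑ x, q i x * q j x := by
    intro i j
    induction j generalizing i with
    | zero => rfl
    | succ j ih => rw [← add_assoc, add_right_comm, ih (i + 1), hq, avg_adj φ ι hι, ← hq]
  obtain ⟨j, rfl⟩ := Nat.exists_eq_add_of_le (show i ≤ n by omega)
  have h1 : q (i + j) 1 ≤ 1 / T.card + (1 - 1 / κ) ^ i := by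
    have a1 : q (i + j) 1 = ∑ x, q i x * q j x := by rw [← hadj]; simp [δ]
    have a2 : 2 * ∑ x, q i x * q j x ≤ u i + u j := by
      simp only [u]
      rw [Finset.mul_sum, ← Finset.sum_add_distrib]
      exact Finset.sum_le_sum fun x _ => by nlinarith [sq_nonneg (q i x - q j x)]
    have a3 : u j ≤ u i := hanti (by omega)
    linarith [hdec i]
  simp only [q, avg_iterate, δ, mul_one] at h1
  rw [div_le_iff₀ (by positivity)] at h1
  simpa using h1

/-- finitely many words are separated in a finite quotient -/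
theorem res_finite {A : Type} [Fintype A] {m : ℕ} (γ : A → GL (Fin m) ℚ) (ι : A ≃ A)
    (hι : ∀ a, γ (ι a) = (γ a)⁻¹) (W : Set (List A)) (hW : W.Finite) :
    ∃ (H : Type) (_ : Group H) (_ : Fintype H) (φ : A → H), (∀ a, φ (ι a) = (φ a)⁻¹) ∧
      (∀ w : List A, (w.map γ).prod = 1 → (w.map φ).prod = 1) ∧
      ∀ w ∈ W, (w.map φ).prod = 1 → (w.map γ).prod = 1 := by
  classical
  obtain ⟨N, M, hN, hM⟩ := exists_integral_model γ
  have := hW.to_subtype
  obtain ⟨B, hB⟩ := (Set.finite_range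
    fun p : W × Fin m × Fin m => (defect N M p.1 p.2.1 p.2.2).natAbs).bddAbove
  obtain ⟨φ, h1, h2⟩ := exists_reduction hM ι hι (N * B + 1) (by simp)
  refine ⟨_, inferInstance, inferInstance, φ, h1, fun w hw => (h2 w).2 fun i j => ?_,
    fun w hw h => (defect_eq_zero_iff hN hM w).1 ?_⟩
  · rw [(defect_eq_zero_iff hN hM w).2 hw]
    exact dvd_zero _
  · ext i j
    refine Int.eq_zero_of_abs_lt_dvd ((h2 w).1 h i j) ?_
    have h3 : (defect N M w i j).natAbs ≤ B := hB ⟨(⟨w, hw⟩, i, j), rfl⟩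
    rw [Int.abs_eq_natAbs]
    exact_mod_cast Nat.lt_succ_of_le (h3.trans (Nat.le_mul_of_pos_left B hN))

theorem geom_le (c r : ℝ) (hc : 1 ≤ c) (hr : 1 ≤ r) (i j : ℕ) (hi : r ^ 4 ≤ 4 * i) :
    (1 - 1 / (r ^ 2 * c)) ^ i ≤ j.factorial * (4 * c) ^ j / r ^ (2 * j) := by
  have h0 : 1 ≤ r ^ 2 * c := one_le_mul_of_one_le_of_one_le (one_le_pow₀ hr) hc
  have h1 : 1 - 1 / (r ^ 2 * c) ≤ Real.exp (-(1 / (r ^ 2 * c))) := by
    linarith [Real.add_one_le_exp (-(1 / (r ^ 2 * c)))]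
  have h2 : r ^ 2 / (4 * c) ≤ i * (1 / (r ^ 2 * c)) := by
    rw [mul_one_div, div_le_div_iff₀ (by positivity) (by positivity)]
    nlinarith
  have h3 := Real.pow_div_factorial_le_exp (r ^ 2 / (4 * c)) (by positivity) j
  calc _ ≤ Real.exp (-(1 / (r ^ 2 * c))) ^ i :=
        pow_le_pow_left₀ (sub_nonneg.2 (div_le_one_of_le₀ h0 (by positivity))) h1 i
    _ ≤ Real.exp (-(r ^ 2 / (4 * c))) := by
        rw [← Real.exp_nat_mul]
        exact Real.exp_le_exp.2 (by linarith)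
    _ ≤ ((r ^ 2 / (4 * c)) ^ j / j.factorial)⁻¹ := by
        rw [Real.exp_neg]
        exact inv_anti₀ (by positivity) h3
    _ = _ := by
        rw [div_pow, ← pow_mul]
        field_simp

open Classical in
theorem fast_decay {A : Type} [Fintype A] [Nonempty A] {m : ℕ} (γ : A → GL (Fin m) ℚ) (ι : A ≃ A)
    (hι : ∀ a, γ (ι a) = (γ a)⁻¹) (d L : ℕ) (hL : 1 ≤ L)
    (hF : ∀ r, ∃ F : Finset (GL (Fin m) ℚ), r ^ (4 * d) ≤ F.card ∧
      ∀ g ∈ F, ∃ w : List A, w.length = 2 * (L * r) ∧ (w.map γ).prod = g) :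
    ∃ C : ℝ, ∀ n : ℕ, 16 ≤ n →
      ((univ.filter (fun w : Fin n → A => ((List.ofFn w).map γ).prod = 1)).card : ℝ) *
        ((n : ℝ) + 1) ^ d ≤ C * (Fintype.card A : ℝ) ^ n := by
  let c : ℝ := (L : ℝ) ^ 2 * (Fintype.card A : ℝ) ^ 2
  have hA1 : (1 : ℝ) ≤ Fintype.card A := by exact_mod_cast Fintype.card_pos
  have hL1 : (1 : ℝ) ≤ L := by exact_mod_cast hL
  have hc : 1 ≤ c := one_le_mul_of_one_le_of_one_le (one_le_pow₀ hL1) (one_le_pow₀ hA1)
  refine ⟨(1 + (2 * d).factorial * (4 * c) ^ (2 * d)) * 16 ^ d, fun n hn => ?_⟩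
  set r := n.sqrt.sqrt with hr
  have hr2 : 2 ≤ r := Nat.le_sqrt.2 (Nat.le_sqrt.2 hn)
  have hr3 : r ^ 4 ≤ n :=
    calc r ^ 4 = (r * r) * (r * r) := by ring
      _ ≤ n.sqrt * n.sqrt := Nat.mul_self_le_mul_self (Nat.sqrt_le _)
      _ ≤ n := Nat.sqrt_le _
  have hr4 : n + 1 ≤ 16 * r ^ 4 :=
    calc n + 1 ≤ (n.sqrt + 1) * (n.sqrt + 1) := Nat.lt_succ_sqrt n
      _ ≤ ((r + 1) * (r + 1)) * ((r + 1) * (r + 1)) :=
        Nat.mul_self_le_mul_self (Nat.lt_succ_sqrt n.sqrt)
      _ = (r + 1) ^ 4 := by ring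
      _ ≤ (2 * r) ^ 4 := Nat.pow_le_pow_left (by omega) 4
      _ = _ := by ring
  obtain ⟨F, hF1, hF2⟩ := hF r
  choose! W hW1 hW2 using hF2
  obtain ⟨H, i1, i2, φ, h1, h2, h3⟩ := res_finite γ ι hι
    ((fun p : _ × _ => W p.1 ++ ((W p.2).map ι).reverse) '' ↑(F ×ˢ F))
    ((F ×ˢ F).finite_toSet.image _)
  have hcard : (F.image fun g => ((W g).map φ).prod).card = F.card := by
    refine card_image_of_injOn fun g hg g' hg' e => ?_
    have e1 := h3 _ ⟨(g, g'), mem_coe.2 (mem_product.2 ⟨hg, hg'⟩), rfl⟩ (by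
      rw [List.map_append, List.prod_append, prod_inv_word φ ι h1, mul_inv_eq_one]
      exact e)
    rwa [List.map_append, List.prod_append, prod_inv_word γ ι hι, mul_inv_eq_one, hW2 g hg,
      hW2 g' hg'] at e1
  have hpos : 0 < r ^ (4 * d) := by positivity
  have hb := return_geom φ ι h1 (L * r) (Nat.mul_pos hL (by omega)) _
    (hcard ▸ hpos.trans_le hF1) (fun x hx => by
      obtain ⟨g, hg, rfl⟩ := mem_image.1 hx
      exact ⟨W g, hW1 g hg, rfl⟩) (n / 2) n (Nat.mul_div_le n 2)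
  have hr1 : (1 : ℝ) ≤ r := by exact_mod_cast (by omega : 1 ≤ r)
  have g1 := geom_le c r hc hr1 (n / 2) (2 * d) (by exact_mod_cast (by omega : r ^ 4 ≤ 4 * (n / 2)))
  have g2 : 1 / (F.card : ℝ) ≤ 1 / (r : ℝ) ^ (4 * d) :=
    one_div_le_one_div_of_le (by positivity) (by exact_mod_cast hF1)
  have g3 : ((n : ℝ) + 1) ^ d ≤ 16 ^ d * (r : ℝ) ^ (4 * d) := by
    rw [pow_mul, ← mul_pow]
    exact pow_le_pow_left₀ (by positivity) (by exact_mod_cast hr4) d
  have g4 : ((univ.filter (fun w : Fin n → A => ((List.ofFn w).map γ).prod = 1)).card : ℝ) ≤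
      (univ.filter (fun w : Fin n → A => ((List.ofFn w).map φ).prod = 1)).card := by
    exact_mod_cast card_le_card fun w hw => mem_filter.2 ⟨mem_univ _, h2 _ (mem_filter.1 hw).2⟩
  rw [hcard, show ((L * r : ℕ) : ℝ) ^ 2 * (Fintype.card A : ℝ) ^ 2 = (r : ℝ) ^ 2 * c by
    simp only [c]; push_cast; ring] at hb
  rw [show 2 * (2 * d) = 4 * d by ring] at g1
  calc _ ≤ ((1 / (r : ℝ) ^ (4 * d) + (2 * d).factorial * (4 * c) ^ (2 * d) / (r : ℝ) ^ (4 * d)) *
        (Fintype.card A : ℝ) ^ n) * (16 ^ d * (r : ℝ) ^ (4 * d)) := by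
        refine mul_le_mul (g4.trans (hb.trans ?_)) g3 (by positivity) (by positivity)
        exact mul_le_mul_of_nonneg_right (add_le_add g2 g1) (by positivity)
    _ = _ := by field_simp

end Pool.Agent.MP_0946c8_al
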